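import Pool.Agent.Work.MP_6b4466_lc.Main2

/-!
# Colourings of Euclidean space by sets with the Baire property

Let `n ≥ 2`, let `D` be a set of vectors of `ℝⁿ` whose closure contains the unit sphere (for
instance the unit sphere itself, or the unit vectors with rational coordinates), and let
`A 0, …, A (k - 1)` be sets with the Baire property (`BaireMeasurableSet`: equal to a Borel set up
to a meagre set) whose union is comeagre, such that no two points of one `A i` have their difference
in `D`. Then `k ≥ (n² + n + 4) / 2`.

Hence in every model of `ZF + DC` in which all sets of reals have the Baire property (Shelah),
`χ(Eⁿ) ≥ (n² + n + 4) / 2` for `n ≥ 2`, that is `5, 8, 12, 17, 23, …`, and the same holds for the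
subgraph of the edges with rational difference, whose chromatic number in `ZFC` is `2` for
`n = 2, 3` and `4` for `n = 4`.

Sketch of the proof. By Baire's theorem one may replace the `A i` by open sets `U i` with dense
union and without pairs at distance one. A connected part of the closure of `U i` has diameter at
most one. The Lebesgue covering theorem (proved here from Brouwer's fixed
point theorem) shows that the points in the closures of at least `n` of the `U i` do not
form a totally disconnected set, so one of them, `p`, has a unit sphere on which the union of the
`U i` is dense. On this sphere only the at most `k - n` colours far from `p` occur, and the argument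
continues on spheres of smaller dimension until the circle, where unit distances are rotations by
an irrational multiple of `π` (Niven) and three colours are needed. In the plane the last circle is
the one of radius `√3` instead of the unit circle.
-/

namespace Pool.Agent.Results.MP_6b4466_lc.BaireLowerBound

/-- **Lower bound for colourings with the Baire property.** -/
theorem result (n k : ℕ) (hn : 2 ≤ n) (D : Set (EuclideanSpace ℝ (Fin n)))
    (hD : Metric.sphere (0 : EuclideanSpace ℝ (Fin n)) 1 ⊆ closure D)
    (A : Fin k → Set (EuclideanSpace ℝ (Fin n))) (hA : ∀ i, BaireMeasurableSet (A i))
    (hcov : ∀ᶠ x in residual (EuclideanSpace ℝ (Fin n)), ∃ i, x ∈ A i)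
    (hfree : ∀ i, ∀ x ∈ A i, ∀ y ∈ A i, y - x ∉ D) :
    n ^ 2 + n + 4 ≤ 2 * k :=
  BPQ.main2 n k hn D hD A hA hcov hfree

end Pool.Agent.Results.MP_6b4466_lc.BaireLowerBound
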