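import Pool.Agent.Work.MP_6b4466_lc.NP.MainB

/-!
# For typical norms the chromatic number of the plane is ambiguous

`Pl` is the Euclidean plane `EuclideanSpace ℝ (Fin 2)`. A norm is a `N : Seminorm ℝ Pl` with
`N x = 0 → x = 0`; `SC N` says that it is strictly convex and `UG N` is its unit-distance graph
(`x` and `y` are adjacent if `N (x - y) = 1`). For `0 < a < b`, `NormSp a b` is the set of all norms
with `a ‖x‖ ≤ N x ≤ b ‖x‖`, with the metric `sup {|N x - M x| : ‖x‖ = 1}`, a complete metric space.

1. Every colouring of a comeagre subset of the plane by sets with the Baire property in which no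
   colour class contains two points at `N`-distance one has at least five colours, for every
   strictly convex norm `N`; it suffices that the differences in a set `D` whose closure contains
   the unit circle are avoided.
2. The unit-distance graph of a typical norm (all norms of a dense `Gδ` subset of `NormSp a b`) has
   chromatic number exactly four, and typical norms are strictly convex.
3. In particular such norms exist arbitrarily close to every norm, for instance to the Euclidean one.
-/

namespace Pool.Agent.Results.MP_6b4466_lc.TypicalNorms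

open NPl

/-- **Typical norms: four colours with choice, five colours with the Baire property.** -/
theorem result :
    (∀ N : Seminorm ℝ Pl, (∀ x, N x = 0 → x = 0) → SC N →
      ∀ D : Set Pl, {x : Pl | N x = 1} ⊆ closure D →
      ∀ (k : ℕ) (A : Fin k → Set Pl), (∀ i, BaireMeasurableSet (A i)) →
        (∀ᶠ x in residual Pl, ∃ i, x ∈ A i) →
        (∀ i, ∀ x ∈ A i, ∀ y ∈ A i, y - x ∉ D) → 5 ≤ k) ∧
    (∀ a b : ℝ, 0 < a → a < b → CompleteSpace (NormSp a b) ∧
      ∃ G : Set (NormSp a b), IsGδ G ∧ Dense G ∧
        ∀ N ∈ G, SC N.1 ∧ (UG N.1).chromaticNumber = 4) ∧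
    (∀ N₀ : Seminorm ℝ Pl, (∀ x, N₀ x = 0 → x = 0) → ∀ ε : ℝ, 0 < ε →
      ∃ N : Seminorm ℝ Pl, (∀ x, N x = 0 → x = 0) ∧ (∀ x, |N x - N₀ x| ≤ ε * ‖x‖) ∧ SC N ∧
        (UG N).chromaticNumber = 4) :=
  ⟨fun N hd hs D hD _ A hA hcov hfree => mainA N hd hs D hD A hA hcov hfree,
    fun _ _ ha hab => ⟨complete, mainB ha hab⟩,
    fun N₀ hd _ hε => mainC N₀ hd hε⟩

end Pool.Agent.Results.MP_6b4466_lc.TypicalNorms
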